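import Pool.Agent.Helper74.RG.Defs
import Pool.Agent.Helper55.RG.A1

/-!
# Block A6 of the rank gradient theorem: a torsion dual gives a finite special curve
-/

set_option autoImplicit false

namespace Pool.Agent.Helper36.RG

open Pool.Agent.Helper74.RG Module

section

variable {s : ℕ} {k : Type} [Field k] {H : Type} [AddCommGroup H] [Module k H]

/-- the lexicographically smallest exponent of a nonzero power series. -/
theorem exists_lex_min {g : MvPowerSeries (Fin s) k} (hg : g ≠ 0) :
    ∃ c : Fin s →₀ ℕ, MvPowerSeries.coeff c g ≠ 0 ∧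
      ∀ b : Fin s →₀ ℕ, MvPowerSeries.coeff b g ≠ 0 → b ≠ c →
        ∃ j, (∀ l, l < j → c l = b l) ∧ c j < b j := by
  have hne : ({x : Lex (Fin s →₀ ℕ) | MvPowerSeries.coeff (ofLex x) g ≠ 0}).Nonempty := by
    by_contra hcon
    rw [Set.not_nonempty_iff_eq_empty] at hcon
    apply hg
    apply MvPowerSeries.ext
    intro b
    by_contra hb
    have h1 : toLex b ∈ {x : Lex (Fin s →₀ ℕ) | MvPowerSeries.coeff (ofLex x) g ≠ 0} := hb
    rw [hcon] at h1
    exact h1
  obtain ⟨c, hc, hmin⟩ := WellFounded.has_min (wellFounded_lt (α := Lex (Fin s →₀ ℕ))) _ hne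
  refine ⟨ofLex c, hc, fun b hb hbc => ?_⟩
  have h1 : ¬ toLex b < c := hmin (toLex b) hb
  have h2 : c < toLex b := lt_of_le_of_ne (not_lt.mp h1) (fun h => hbc (by rw [h]; rfl))
  exact Finsupp.Lex.lt_iff.mp h2

/-- the weights. -/
def wt (p N e : ℕ) (i : Fin (e + 1)) : ℕ := p ^ (N * (e - i))

theorem wt_last (p N e : ℕ) : wt p N e (Fin.last e) = 1 := by
  unfold wt
  rw [Fin.val_last, Nat.sub_self, Nat.mul_zero, pow_zero]

/-- the weight inequality. -/
theorem wt_lt {p e : ℕ} (hp : 2 ≤ p) (c b : Fin (e + 1) → ℕ) (N : ℕ) (hN : ∑ l, c l < N)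
    (j : Fin (e + 1)) (hlt : ∀ l, l < j → c l = b l) (hj : c j < b j) :
    ∑ l, wt p N e l * c l < ∑ l, wt p N e l * b l := by
  classical
  rw [← Finset.sum_filter_add_sum_filter_not Finset.univ (fun l => l ≤ j)
    (fun l => wt p N e l * c l)]
  have h1 : ∑ l ∈ Finset.univ.filter (fun l => ¬ l ≤ j), wt p N e l * c l < wt p N e j := by
    by_cases hje : j = Fin.last e
    · have h2 : Finset.univ.filter (fun l : Fin (e + 1) => ¬ l ≤ j) = ∅ := by
        apply Finset.filter_eq_empty_iff.mpr
        intro l _ hl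
        exact hl (hje ▸ Fin.le_last l)
      rw [h2, Finset.sum_empty]
      unfold wt
      positivity
    · have hjlt : (j : ℕ) < e := by
        have := Fin.lt_last_iff_ne_last.mpr hje
        rw [Fin.lt_def] at this
        exact this
      have h2 : ∀ l ∈ Finset.univ.filter (fun l : Fin (e + 1) => ¬ l ≤ j),
          wt p N e l * c l ≤ p ^ (N * (e - j - 1)) * c l := by
        intro l hl
        rw [Finset.mem_filter] at hl
        have h3 : (j : ℕ) < l := by
          have := not_le.mp hl.2
          rwa [Fin.lt_def] at this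
        apply Nat.mul_le_mul_right
        unfold wt
        apply Nat.pow_le_pow_right (by omega)
        apply Nat.mul_le_mul_left
        omega
      have h4 : ∑ l ∈ Finset.univ.filter (fun l : Fin (e + 1) => ¬ l ≤ j), c l ≤ ∑ l, c l :=
        Finset.sum_le_sum_of_subset (Finset.filter_subset _ _)
      calc ∑ l ∈ Finset.univ.filter (fun l => ¬ l ≤ j), wt p N e l * c l
          ≤ ∑ l ∈ Finset.univ.filter (fun l : Fin (e + 1) => ¬ l ≤ j),
              p ^ (N * (e - j - 1)) * c l := Finset.sum_le_sum h2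
        _ = p ^ (N * (e - j - 1)) *
              ∑ l ∈ Finset.univ.filter (fun l : Fin (e + 1) => ¬ l ≤ j), c l := by
            rw [Finset.mul_sum]
        _ ≤ p ^ (N * (e - j - 1)) * ∑ l, c l := Nat.mul_le_mul_left _ h4
        _ < p ^ (N * (e - j - 1)) * p ^ N := by
            apply Nat.mul_lt_mul_of_pos_left _ (by positivity)
            exact hN.trans (Nat.lt_pow_self (by omega))
        _ = wt p N e j := by
            unfold wt
            rw [← pow_add]
            congr 1
            have : e - (j : ℕ) = (e - j - 1) + 1 := by omega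
            rw [this]
            simp only [Nat.add_sub_cancel]
            ring
  have h5 : ∑ l ∈ Finset.univ.filter (fun l => l ≤ j), wt p N e l * c l + wt p N e j ≤
      ∑ l ∈ Finset.univ.filter (fun l => l ≤ j), wt p N e l * b l := by
    have hjm : j ∈ Finset.univ.filter (fun l : Fin (e + 1) => l ≤ j) := by
      rw [Finset.mem_filter]
      exact ⟨Finset.mem_univ _, le_rfl⟩
    rw [← Finset.add_sum_erase _ _ hjm, ← Finset.add_sum_erase _ (fun l => wt p N e l * b l) hjm]
    have h6 : ∑ l ∈ (Finset.univ.filter (fun l : Fin (e + 1) => l ≤ j)).erase j,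
        wt p N e l * c l ≤ ∑ l ∈ (Finset.univ.filter (fun l : Fin (e + 1) => l ≤ j)).erase j,
        wt p N e l * b l := by
      apply Finset.sum_le_sum
      intro l hl
      rw [Finset.mem_erase, Finset.mem_filter] at hl
      rw [hlt l (lt_of_le_of_ne hl.2.2 hl.1)]
    have h7 : wt p N e j * c j + wt p N e j ≤ wt p N e j * b j := by
      rw [← Nat.mul_succ]
      exact Nat.mul_le_mul_left _ hj
    omega
  have h8 : ∑ l ∈ Finset.univ.filter (fun l => l ≤ j), wt p N e l * b l ≤
      ∑ l, wt p N e l * b l :=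
    Finset.sum_le_sum_of_subset (Finset.filter_subset _ _)
  omega

/-- action of a product on a special curve. -/
theorem list_curve (K : ℕ → H) : ∀ (m : ℕ) (A : Fin m → Module.End k H) (d : Fin m → ℕ),
    (∀ i n, A i (K n) = K (n + d i)) → ∀ n, (List.ofFn A).prod (K n) = K (n + ∑ i, d i) := by
  intro m
  induction m with
  | zero => intro A d _ n; simp
  | succ m ih =>
    intro A d h n
    rw [List.ofFn_succ, List.prod_cons, Module.End.mul_apply,
      ih (fun i => A i.succ) (fun i => d i.succ) (fun i n => h i.succ n), h, Fin.sum_univ_succ]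
    congr 1
    ring

/-- A6 with finiteness as hypotheses (both are block A1) -/
theorem special_of_rank_zero_aux {e : ℕ} {T : Fin (e + 1) → Module.End k H} (hT : LN T)
    (hDR : Module.Finite (MvPowerSeries (Fin (e + 1)) k) (DR hT))
    (hbox : ∀ q, FiniteDimensional k (box T q))
    (h0 : finrank (MvPowerSeries (Fin (e + 1)) k) (DR hT) = 0) {p : ℕ} (hp : 2 ≤ p) :
    ∃ (a : Fin e → ℕ) (W : Submodule k H), FiniteDimensional k W ∧
      ∀ u, (∀ i : Fin e, T i.castSucc u = (T (Fin.last e) ^ (p ^ a i)) u) → u ∈ W := by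
  classical
  have htor := Module.finrank_eq_zero_iff_isTorsion.mp h0
  obtain ⟨g, hg1, hg2⟩ := Submodule.annihilator_top_inter_nonZeroDivisors htor
  have hg0 : g ≠ 0 := nonZeroDivisors.ne_zero hg2
  have hact : ∀ h, act T g h = 0 := by
    intro h
    rw [← Module.forall_dual_apply_eq_zero_iff k]
    intro φ
    have h1 : g • (DR.of hT φ) = 0 := by
      have h2 : g ∈ (⊤ : Submodule (MvPowerSeries (Fin (e + 1)) k) (DR hT)).annihilator := hg1
      exact Submodule.mem_annihilator.mp h2 _ Submodule.mem_top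
    have h3 := DR.smul_apply g (DR.of hT φ) h
    rw [h1] at h3
    exact h3.symm
  obtain ⟨c, hc, hmin⟩ := exists_lex_min hg0
  set N : ℕ := 1 + ∑ l, c l with hN
  set w := wt p N e with hw
  set E0 : ℕ := ∑ l, w l * c l with hE0
  refine ⟨fun i => N * (e - i), box T E0, hbox E0, fun u hu => ?_⟩
  set K : ℕ → H := fun n => (T (Fin.last e) ^ n) u with hK
  have hTu : ∀ i, T i u = K (w i) := by
    intro i
    rcases Fin.eq_castSucc_or_eq_last i with ⟨i, rfl⟩ | rfl
    · rw [hu i]
      rfl
    · rw [hw, wt_last]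
      change _ = (T (Fin.last e) ^ 1) u
      rw [pow_one]
  have hTK : ∀ i n, T i (K n) = K (n + w i) := by
    intro i n
    have h1 := ((hT.commute i (Fin.last e)).pow_right n).eq
    have h2 : T i (K n) = (T (Fin.last e) ^ n) (T i u) := by
      change T i ((T (Fin.last e) ^ n) u) = _
      rw [← Module.End.mul_apply, h1, Module.End.mul_apply]
    rw [h2, hTu]
    change (T (Fin.last e) ^ n) ((T (Fin.last e) ^ (w i)) u) = (T (Fin.last e) ^ (n + w i)) u
    rw [pow_add, Module.End.mul_apply]
  have hTKm : ∀ i (m n : ℕ), (T i ^ m) (K n) = K (n + w i * m) := by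
    intro i m
    induction m with
    | zero => intro n; rfl
    | succ m ih =>
      intro n
      rw [pow_succ, Module.End.mul_apply, hTK, ih, Nat.mul_succ]
      congr 1
      omega
  have hmon : ∀ (b : Fin (e + 1) → ℕ) n, mon T b (K n) = K (n + ∑ l, w l * b l) := by
    intro b n
    exact list_curve K (e + 1) (fun i => T i ^ b i) (fun i => w i * b i)
      (fun i n => hTKm i (b i) n) n
  have hKmono : ∀ {m n : ℕ}, m ≤ n → K m = 0 → K n = 0 := by
    intro m n hmn h
    exact pow_zero_of_le hmn h
  have hstep : ∀ n, K (n + E0 + 1) = 0 → K (n + E0) = 0 := by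
    intro n hn
    have h1 := hact (K n)
    unfold act at h1
    rw [finsum_eq_single _ c] at h1
    · rw [hmon] at h1
      exact (smul_eq_zero.mp h1).resolve_left hc
    · intro b hb
      by_cases hbg : MvPowerSeries.coeff b g = 0
      · rw [hbg, zero_smul]
      · obtain ⟨j, hj1, hj2⟩ := hmin b hbg hb
        have h2 : E0 < ∑ l, w l * b l := wt_lt hp c b N (by omega) j hj1 hj2
        rw [hmon]
        rw [hKmono (m := n + E0 + 1) (by omega) hn, smul_zero]
  have hK0 : K E0 = 0 := by
    obtain ⟨M, hM⟩ := hT.nil (Fin.last e) u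
    have h1 : ∀ m, K (m + E0) = 0 → K E0 = 0 := by
      intro m
      induction m with
      | zero => intro h; rwa [Nat.zero_add] at h
      | succ m ih =>
        intro h
        apply ih
        apply hstep
        rw [← h]
        congr 1
        omega
    exact h1 M (hKmono (Nat.le_add_right _ _) hM)
  rw [mem_box]
  intro i
  have h1 := hTKm i E0 0
  rw [Nat.zero_add] at h1
  have h2 : K 0 = u := rfl
  rw [h2] at h1
  rw [h1]
  apply hKmono _ hK0
  have h3 : 1 ≤ w i := by
    rw [hw]
    unfold wt
    exact Nat.one_le_pow _ _ (by omega)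
  exact Nat.le_mul_of_pos_left _ h3

/-- A6 -/
theorem special_of_rank_zero {e : ℕ} {T : Fin (e + 1) → Module.End k H} (hT : LN T)
    [FiniteDimensional k (inv T)]
    (h0 : finrank (MvPowerSeries (Fin (e + 1)) k) (DR hT) = 0) {p : ℕ} (hp : 2 ≤ p) :
    ∃ (a : Fin e → ℕ) (W : Submodule k H), FiniteDimensional k W ∧
      ∀ u, (∀ i : Fin e, T i.castSucc u = (T (Fin.last e) ^ (p ^ a i)) u) → u ∈ W :=
  special_of_rank_zero_aux hT (Pool.Agent.Helper55.RG.finite_DR hT)
    (Pool.Agent.Helper55.RG.finite_box hT) h0 hp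

end

end Pool.Agent.Helper36.RG
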