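import Pool.Agent.Helper74.RG.DefsG
import Pool.Agent.Helper1.RG.G1

/-!
# Block G2 of the rank gradient theorem: the coregular module
-/

set_option autoImplicit false

namespace Pool.Agent.Helper36.RG

open Pool.Agent.Helper74.RG Module

variable {p s : ℕ} [Fact p.Prime] {G : Type} [Group G] (D : Dat p s G)
  {H : Type} [AddCommGroup H] [Module (ZMod p) H] {ρ : G →* Module.End (ZMod p) H}

/-- a nonzero stable subspace meets the common kernel. -/
theorem stable_eq_bot {k : Type} [Field k] {H : Type} [AddCommGroup H] [Module k H]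
    {T : Fin s → Module.End k H} (hT : LN T) (K : Submodule k H)
    (hK : ∀ i, ∀ w ∈ K, T i w ∈ K) (h0 : ∀ w ∈ K, w ∈ inv T → w = 0) : ∀ w ∈ K, w = 0 := by
  intro w hw
  by_contra hw0
  have hpow : ∀ i (n : ℕ), ∀ w ∈ K, (T i ^ n) w ∈ K := by
    intro i n
    induction n with
    | zero => intro w hw; exact hw
    | succ n ih =>
      intro w hw
      rw [pow_succ, Module.End.mul_apply]
      exact ih _ (hK i w hw)
  have hlist : ∀ (m : ℕ) (A : Fin m → Module.End k H), (∀ i, ∀ w ∈ K, A i w ∈ K) →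
      ∀ w ∈ K, (List.ofFn A).prod w ∈ K := by
    intro m
    induction m with
    | zero => intro A _ w hw; simpa using hw
    | succ m ih =>
      intro A hA w hw
      rw [List.ofFn_succ, List.prod_cons, Module.End.mul_apply]
      exact hA 0 _ (ih _ (fun i => hA i.succ) w hw)
  have hmon : ∀ α : Fin s → ℕ, mon T α w ∈ K := fun α =>
    hlist s _ (fun i => hpow i (α i)) w hw
  have hne : {α : Fin s →₀ ℕ | mon T α w ≠ 0}.Nonempty := by
    refine ⟨0, ?_⟩
    change mon T ((0 : Fin s →₀ ℕ) : Fin s → ℕ) w ≠ 0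
    rw [Finsupp.coe_zero, mon_zero]
    exact hw0
  obtain ⟨α, hα, hmax⟩ := Set.exists_max_image _ (fun α : Fin s →₀ ℕ => ∑ i, α i)
    (hT.finite_supp w) hne
  apply hα
  apply h0 _ (hmon α)
  rw [mem_inv]
  intro i
  by_contra hi
  have h1 : mon T (⇑(Finsupp.single i 1 + α : Fin s →₀ ℕ)) w = T i (mon T α w) := by
    rw [Finsupp.coe_add, hT.mon_add, Module.End.mul_apply]
    have h2 : ((Finsupp.single i 1 : Fin s →₀ ℕ) : Fin s → ℕ) = Pi.single i 1 := by
      funext j
      rw [Finsupp.single_apply, Pi.single_apply]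
      simp only [eq_comm]
    rw [h2, mon_single, pow_one]
  have h3 := hmax (Finsupp.single i 1 + α) (by
    change mon T (⇑(Finsupp.single i 1 + α : Fin s →₀ ℕ)) w ≠ 0
    rw [h1]
    exact hi)
  simp only [Finsupp.add_apply, Finset.sum_add_distrib] at h3
  have h4 : ∑ l, (Finsupp.single i 1 : Fin s →₀ ℕ) l = 1 := by
    rw [Finset.sum_eq_single i]
    · rw [Finsupp.single_eq_same]
    · intro l _ hl
      rw [Finsupp.single_apply, if_neg (Ne.symm hl)]
    · intro h; exact absurd (Finset.mem_univ i) h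
  omega

/-- G2a -/
theorem Cof.sm (n : ℕ) : Sm D (Cof.ρ D n) := by
  intro f
  obtain ⟨j, hj⟩ := f.2
  refine ⟨j, fun a ha => Subtype.ext (funext fun x => ?_)⟩
  rw [Cof.ρ_apply]
  exact hj x a ha

/-- functions on the cosets of `V`. -/
noncomputable def Cof.lift (n : ℕ) :
    (G ⧸ D.V → (Fin n → ZMod p)) →ₗ[ZMod p] fixed (Cof.ρ D n) D.V where
  toFun φ := ⟨⟨fun x => φ (x : G ⧸ D.V), ⟨0, fun x a ha => by
      have h1 : a ∈ D.V := by
        rw [D.mem_A] at ha
        exact ha.1
      have h2 : ((x * a : G) : G ⧸ D.V) = (x : G ⧸ D.V) := by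
        rw [QuotientGroup.mk_mul_of_mem x h1]
      change φ ((x * a : G) : G ⧸ D.V) = φ (x : G ⧸ D.V)
      rw [h2]⟩⟩, fun g hg => by
      apply Subtype.ext
      funext x
      rw [Cof.ρ_apply]
      change φ ((x * g : G) : G ⧸ D.V) = φ (x : G ⧸ D.V)
      rw [QuotientGroup.mk_mul_of_mem x hg]⟩
  map_add' φ ψ := rfl
  map_smul' c φ := rfl

theorem Cof.lift_apply (n : ℕ) (φ : G ⧸ D.V → (Fin n → ZMod p)) (x : G) :
    ((Cof.lift D n φ).1).1 x = φ (x : G ⧸ D.V) := rfl

theorem Cof.lift_bijective (n : ℕ) : Function.Bijective (Cof.lift D n) := by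
  constructor
  · intro φ ψ h
    funext q
    obtain ⟨x, rfl⟩ := QuotientGroup.mk_surjective q
    rw [← Cof.lift_apply D n φ, ← Cof.lift_apply D n ψ, h]
  · intro f
    refine ⟨fun q => f.1.1 q.out, ?_⟩
    apply Subtype.ext
    apply Subtype.ext
    funext x
    rw [Cof.lift_apply]
    have h1 : x⁻¹ * (x : G ⧸ D.V).out ∈ D.V := by
      rw [← QuotientGroup.eq, QuotientGroup.out_eq']
    have h2 := f.2 _ h1
    have h3 : (Cof.ρ D n (x⁻¹ * (x : G ⧸ D.V).out) f.1).1 x = f.1.1 x := by rw [h2]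
    rw [Cof.ρ_apply, mul_inv_cancel_left] at h3
    exact h3

/-- G2b -/
theorem Cof.finrank_fixed (n : ℕ) : FiniteDimensional (ZMod p) (fixed (Cof.ρ D n) D.V) ∧
    finrank (ZMod p) (fixed (Cof.ρ D n) D.V) = n * D.V.index := by
  classical
  have hfin : Finite (G ⧸ D.V) := by
    have : D.V.FiniteIndex := ⟨D.fin⟩
    infer_instance
  have := Fintype.ofFinite (G ⧸ D.V)
  let e := LinearEquiv.ofBijective (Cof.lift D n) (Cof.lift_bijective D n)
  refine ⟨Module.Finite.equiv e, ?_⟩
  rw [← e.finrank_eq, Module.finrank_pi_fintype]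
  simp only [Module.finrank_fin_fun, Finset.sum_const, Finset.card_univ, smul_eq_mul]
  rw [Subgroup.index, Nat.card_eq_fintype_card, mul_comm]

/-- G2c -/
theorem Cof.embed {D : Dat p s G} (hs : Sm D ρ) {n : ℕ} (x : Fin n → Module.Dual (ZMod p) H)
    (hx : ∀ h ∈ fixed ρ D.V, (∀ i, x i h = 0) → h = 0) :
    ∃ f : H →ₗ[ZMod p] Cof D n, Function.Injective f ∧ ∀ g h, f (ρ g h) = Cof.ρ D n g (f h) := by
  let f : H →ₗ[ZMod p] Cof D n :=
    { toFun := fun h => ⟨fun y i => x i (ρ y h), by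
        obtain ⟨j, hj⟩ := hs h
        refine ⟨j, fun y a ha => ?_⟩
        funext i
        change x i (ρ (y * a) h) = x i (ρ y h)
        rw [map_mul, Module.End.mul_apply, hj a ha]⟩
      map_add' := fun h h' => by
        apply Subtype.ext
        funext y i
        change x i (ρ y (h + h')) = x i (ρ y h) + x i (ρ y h')
        rw [map_add, map_add]
      map_smul' := fun c h => by
        apply Subtype.ext
        funext y i
        change x i (ρ y (c • h)) = c • x i (ρ y h)
        rw [map_smul, map_smul] }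
  have hf : ∀ h y i, (f h).1 y i = x i (ρ y h) := fun h y i => rfl
  have he : ∀ g h, f (ρ g h) = Cof.ρ D n g (f h) := by
    intro g h
    apply Subtype.ext
    funext y i
    rw [Cof.ρ_apply, hf, hf, map_mul, Module.End.mul_apply]
  refine ⟨f, ?_, he⟩
  rw [← LinearMap.ker_eq_bot, LinearMap.ker_eq_bot']
  intro w hw
  refine stable_eq_bot (Pool.Agent.Helper1.RG.Sm.ln hs) (LinearMap.ker f) ?_ ?_ w (LinearMap.mem_ker.mpr hw)
  · intro i w hw
    rw [LinearMap.mem_ker] at hw ⊢
    change f (ρ (D.t i : G) w - w) = 0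
    rw [map_sub, he, hw, map_zero, sub_zero]
  · intro w hw hw2
    rw [LinearMap.mem_ker] at hw
    rw [Pool.Agent.Helper1.RG.Sm.inv_eq hs] at hw2
    apply hx w hw2
    intro i
    have h1 := hf w 1 i
    rw [map_one, Module.End.one_apply, hw] at h1
    exact h1.symm

end Pool.Agent.Helper36.RG
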